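import Pool.Agent.Lib_helper43.Tori.Fourier
import Pool.Agent.Lib_helper43.Tori.Scales

set_option autoImplicit false

namespace Pool.Agent.Results.MP_dee57a_an.FrequencyL2

open MeasureTheory

/-- The trigonometric polynomial `∑ c_ξ exp (2 π i ξ · x)` on `ℝ³ / ℤ³`. -/
noncomputable def trigPoly (c : (Fin 3 → ℤ) →₀ ℂ) (x : Fin 3 → ℝ) : ℂ :=
  c.sum fun ξ a => a * Complex.exp (2 * Real.pi * Complex.I *
    ∑ i, ((ξ i : ℤ) : ℂ) * ((x i : ℝ) : ℂ))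

/-- The Fourier coefficient at `v` of a function on the unit cube `[0, 1]³`. -/
noncomputable def fourierCoeff (f : (Fin 3 → ℝ) → ℝ) (v : Fin 3 → ℤ) : ℂ :=
  ∫ x in Set.Icc (0 : Fin 3 → ℝ) 1, (f x : ℂ) * Complex.exp (-(2 * Real.pi * Complex.I *
    ∑ i, ((v i : ℤ) : ℂ) * ((x i : ℝ) : ℂ)))

/-- For every `ε > 0` there is a constant `C` such that for every positive integer `q` the part of
`|u|²` at the frequencies `v ∈ q ℤ³` with `gcd(v) |v| ≤ q n^(1/2 - ε)` is bounded in `L²` by `√C`,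
uniformly over all `L²`-normalised Laplace eigenfunctions `u` on the three dimensional torus (with
eigenvalue given by `n`). -/
theorem result : ∀ ε : ℝ, 0 < ε → ∃ C : ℝ, ∀ n : ℕ, ∀ c : (Fin 3 → ℤ) →₀ ℂ,
    (∀ ξ ∈ c.support, ∑ i, (ξ i) ^ 2 = (n : ℤ)) → (c.sum fun _ a => ‖a‖ ^ 2) = 1 →
    ∀ q : ℕ, 0 < q → ∀ T : Finset (Fin 3 → ℤ), (∀ v ∈ T, ∀ i, (q : ℤ) ∣ v i) →
      (∀ v ∈ T, ((Finset.univ.gcd v : ℤ) : ℝ) * Real.sqrt (∑ i, (v i : ℝ) ^ 2) ≤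
        q * (n : ℝ) ^ (1 / 2 - ε)) →
      ∑ v ∈ T, ‖fourierCoeff (fun x => ‖trigPoly c x‖ ^ 2) v‖ ^ 2 ≤ C := by
  classical
  intro ε hε
  obtain ⟨C, hC0, hC⟩ := Lib_helper43.Tori.good_bound ε hε
  refine ⟨1 + C, ?_⟩
  intro n c hc hc1 q hq T hTq hT
  have hnq : ∀ x : Fin 3 → ℤ, Lib_helper43.Tori.nq x = ∑ i, (x i) ^ 2 := by
    intro x; rw [Fin.sum_univ_three]; rfl
  have hA : ∑ ξ ∈ c.support, ‖c ξ‖ ^ 2 = 1 := hc1
  have h := hC n (q : ℤ) (by exact_mod_cast hq) c.support (T.erase 0)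
    (fun x hx => by rw [hnq]; exact hc x hx)
    (fun v hv => (Finset.mem_erase.1 hv).1) (fun v hv => hTq v (Finset.mem_erase.1 hv).2)
    (fun v hv => by
      have := hT v (Finset.mem_erase.1 hv).2
      rw [hnq]
      push_cast
      exact this) (fun x => ‖c x‖)
    (fun x hx => norm_pos_iff.2 (Finsupp.mem_support_iff.1 hx))
    (fun x hx => by rw [Finsupp.notMem_support_iff.1 hx, norm_zero])
  rw [hA, one_pow, mul_one] at h
  have hcoef : ∀ v, ‖fourierCoeff (fun x => ‖trigPoly c x‖ ^ 2) v‖ ^ 2 ≤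
      (∑ ξ ∈ c.support, ‖c (ξ + v)‖ * ‖c ξ‖) ^ 2 := by
    intro v
    have hv : fourierCoeff (fun x => ‖trigPoly c x‖ ^ 2) v =
        ∫ x in Set.Icc (0 : Fin 3 → ℝ) 1,
          ((‖c.sum fun ξ a => a * Lib_helper43.Tori.ch ξ x‖ ^ 2 : ℝ) : ℂ) *
            Lib_helper43.Tori.ch (-v) x := by
      unfold fourierCoeff
      congr 1
      ext x
      congr 1
      unfold Lib_helper43.Tori.ch Lib_helper43.Tori.ph
      congr 1
      simp only [Pi.neg_apply, Int.cast_neg, neg_mul, Finset.sum_neg_distrib]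
      ring
    rw [hv]
    exact pow_le_pow_left₀ (norm_nonneg _) (Lib_helper43.Tori.coeff_norm_le c v) 2
  have h0 : (∑ ξ ∈ c.support, ‖c (ξ + 0)‖ * ‖c ξ‖) ^ 2 = 1 := by
    have : ∑ ξ ∈ c.support, ‖c (ξ + 0)‖ * ‖c ξ‖ = 1 := by
      rw [← hA]
      exact Finset.sum_congr rfl fun ξ _ => by rw [add_zero]; ring
    rw [this, one_pow]
  calc ∑ v ∈ T, ‖fourierCoeff (fun x => ‖trigPoly c x‖ ^ 2) v‖ ^ 2
      ≤ ∑ v ∈ T, (∑ ξ ∈ c.support, ‖c (ξ + v)‖ * ‖c ξ‖) ^ 2 :=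
        Finset.sum_le_sum fun v _ => hcoef v
    _ ≤ ∑ v ∈ insert 0 (T.erase 0), (∑ ξ ∈ c.support, ‖c (ξ + v)‖ * ‖c ξ‖) ^ 2 :=
        Finset.sum_le_sum_of_subset_of_nonneg (Finset.insert_erase_subset _ _)
          fun _ _ _ => sq_nonneg _
    _ = 1 + ∑ v ∈ T.erase 0, (∑ ξ ∈ c.support, ‖c (ξ + v)‖ * ‖c ξ‖) ^ 2 := by
        rw [Finset.sum_insert (Finset.notMem_erase _ _), h0]
    _ ≤ 1 + C := by linarith

end Pool.Agent.Results.MP_dee57a_an.FrequencyL2
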