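import Pool.Agent.Lib_helper43.Tori.Fourier
import Pool.Agent.Lib_helper43.Tori.Log

set_option autoImplicit false

namespace Pool.Agent.Results.MP_dee57a_an.GcdLog

open MeasureTheory

/-- The trigonometric polynomial `∑ c_ξ exp (2 π i ξ · x)` on `ℝ³ / ℤ³`. -/
noncomputable def trigPoly (c : (Fin 3 → ℤ) →₀ ℂ) (x : Fin 3 → ℝ) : ℂ :=
  c.sum fun ξ a => a * Complex.exp (2 * Real.pi * Complex.I *
    ∑ i, ((ξ i : ℤ) : ℂ) * ((x i : ℝ) : ℂ))

/-- The Fourier coefficient at `v` of a function on the unit cube `[0, 1]³`. -/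
noncomputable def fourierCoeff (f : (Fin 3 → ℝ) → ℝ) (v : Fin 3 → ℤ) : ℂ :=
  ∫ x in Set.Icc (0 : Fin 3 → ℝ) 1, (f x : ℂ) * Complex.exp (-(2 * Real.pi * Complex.I *
    ∑ i, ((v i : ℤ) : ℂ) * ((x i : ℝ) : ℂ)))

/-- There is a constant `C` such that for every positive integer `q` and every real `Y ≥ 0` the
part of `|u|²` at the frequencies `v` with greatest common divisor `q` and `Y |v| ≤ √n` has squared
`L²` norm at most `C log n / log (2 + Y)`, uniformly in `q`, `Y` and over all `L²`-normalised Laplace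
eigenfunctions `u` on the three dimensional torus (with eigenvalue given by `n`). -/
theorem result : ∃ C : ℝ, ∀ n : ℕ, 2 ≤ n → ∀ c : (Fin 3 → ℤ) →₀ ℂ,
    (∀ ξ ∈ c.support, ∑ i, (ξ i) ^ 2 = (n : ℤ)) → (c.sum fun _ a => ‖a‖ ^ 2) = 1 →
    ∀ q : ℕ, 0 < q → ∀ Y : ℝ, 0 ≤ Y → ∀ T : Finset (Fin 3 → ℤ),
      (∀ v ∈ T, Finset.univ.gcd v = (q : ℤ)) →
      (∀ v ∈ T, Y * Real.sqrt (∑ i, (v i : ℝ) ^ 2) ≤ Real.sqrt n) →
      ∑ v ∈ T, ‖fourierCoeff (fun x => ‖trigPoly c x‖ ^ 2) v‖ ^ 2 ≤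
        C * (Real.log n / Real.log (2 + Y)) := by
  classical
  obtain ⟨C, hC0, hC⟩ := Lib_helper43.Tori.log_bound'
  refine ⟨C, ?_⟩
  intro n hn c hc hc1 q hq Y hY T hT hTY
  have hnq : ∀ x : Fin 3 → ℤ, Lib_helper43.Tori.nq x = ∑ i, (x i) ^ 2 := by
    intro x; rw [Fin.sum_univ_three]; rfl
  have hA : ∑ ξ ∈ c.support, ‖c ξ‖ ^ 2 = 1 := hc1
  have h := hC n hn (q : ℤ) Y hY c.support T
    (fun x hx => by rw [hnq]; exact hc x hx)
    (fun v hv => by
      have hY' := hTY v hv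
      refine ⟨⟨?_, hT v hv⟩, ?_⟩
      swap
      · rw [hnq]
        push_cast
        exact hY'
      rintro rfl
      have h0 := hT 0 hv
      have h1 : Finset.univ.gcd (0 : Fin 3 → ℤ) = 0 := by
        rw [Finset.gcd_eq_zero_iff]
        intro i _
        rfl
      rw [h1] at h0
      have : (q : ℤ) = 0 := h0.symm
      omega)
    (fun x => ‖c x‖)
    (fun x hx => norm_pos_iff.2 (Finsupp.mem_support_iff.1 hx))
    (fun x hx => by rw [Finsupp.notMem_support_iff.1 hx, norm_zero])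
  rw [hA, one_pow, mul_one] at h
  refine le_trans (Finset.sum_le_sum fun v _ => ?_) h
  have hv : fourierCoeff (fun x => ‖trigPoly c x‖ ^ 2) v =
      ∫ x in Set.Icc (0 : Fin 3 → ℝ) 1,
        ((‖c.sum fun ξ a => a * Lib_helper43.Tori.ch ξ x‖ ^ 2 : ℝ) : ℂ) *
          Lib_helper43.Tori.ch (-v) x := by
    unfold fourierCoeff
    congr 1
    ext x
    congr 1
    unfold Lib_helper43.Tori.ch Lib_helper43.Tori.ph
    congr 1
    simp only [Pi.neg_apply, Int.cast_neg, neg_mul, Finset.sum_neg_distrib]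
    ring
  rw [hv]
  exact pow_le_pow_left₀ (norm_nonneg _) (Lib_helper43.Tori.coeff_norm_le c v) 2

end Pool.Agent.Results.MP_dee57a_an.GcdLog
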