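import Pool.Agent.Lib_helper43.Tori.Fourier
import Pool.Agent.Lib_helper43.Tori.Log
import Pool.Agent.Lib_helper74.Tori.Count

set_option autoImplicit false

namespace Pool.Agent.Results.MP_dee57a_an.SmallDirections

open MeasureTheory

/-- The trigonometric polynomial `∑ c_ξ exp (2 π i ξ · x)` on `ℝ³ / ℤ³`. -/
noncomputable def trigPoly (c : (Fin 3 → ℤ) →₀ ℂ) (x : Fin 3 → ℝ) : ℂ :=
  c.sum fun ξ a => a * Complex.exp (2 * Real.pi * Complex.I *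
    ∑ i, ((ξ i : ℤ) : ℂ) * ((x i : ℝ) : ℂ))

/-- The Fourier coefficient at `v` of a function on the unit cube `[0, 1]³`. -/
noncomputable def fourierCoeff (f : (Fin 3 → ℝ) → ℝ) (v : Fin 3 → ℤ) : ℂ :=
  ∫ x in Set.Icc (0 : Fin 3 → ℝ) 1, (f x : ℂ) * Complex.exp (-(2 * Real.pi * Complex.I *
    ∑ i, ((v i : ℤ) : ℂ) * ((x i : ℝ) : ℂ)))

theorem nq_eq (x : Fin 3 → ℤ) : Lib_helper43.Tori.nq x = ∑ i, (x i) ^ 2 := by
  rw [Fin.sum_univ_three]; rfl

theorem coef_le (c : (Fin 3 → ℤ) →₀ ℂ) (v : Fin 3 → ℤ) :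
    ‖fourierCoeff (fun x => ‖trigPoly c x‖ ^ 2) v‖ ^ 2 ≤
      (∑ ξ ∈ c.support, ‖c (ξ + v)‖ * ‖c ξ‖) ^ 2 := by
  have hv : fourierCoeff (fun x => ‖trigPoly c x‖ ^ 2) v =
      ∫ x in Set.Icc (0 : Fin 3 → ℝ) 1,
        ((‖c.sum fun ξ a => a * Lib_helper43.Tori.ch ξ x‖ ^ 2 : ℝ) : ℂ) *
          Lib_helper43.Tori.ch (-v) x := by
    unfold fourierCoeff
    congr 1
    ext x
    congr 1
    unfold Lib_helper43.Tori.ch Lib_helper43.Tori.ph
    congr 1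
    simp only [Pi.neg_apply, Int.cast_neg, neg_mul, Finset.sum_neg_distrib]
    ring
  rw [hv]
  exact pow_le_pow_left₀ (norm_nonneg _) (Lib_helper43.Tori.coeff_norm_le c v) 2

theorem sm_of {n f : ℕ} {v : Fin 3 → ℤ}
    (h : (f : ℤ) ^ 2 * (∑ i, (v i) ^ 2) ^ 4 < n * (Finset.univ.gcd v) ^ 8) :
    Lib_helper74.Tori.Sm f n v := by
  have hv : v ≠ 0 := by
    rintro rfl
    have h1 : Finset.univ.gcd (0 : Fin 3 → ℤ) = 0 :=
      Finset.gcd_eq_zero_iff.2 fun _ _ => rfl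
    rw [h1] at h
    simp at h
  obtain ⟨w, u, hvw, -, hq, hpos, -⟩ := Lib_helper43.Tori.gcd_vector hv rfl
  refine ⟨hv, Finset.univ.gcd v, w, hpos, hvw, ?_⟩
  have hq' : Lib_helper43.Tori.nq v = Finset.univ.gcd v ^ 2 * Lib_helper43.Tori.nq w := by
    exact_mod_cast hq
  rw [← nq_eq, hq'] at h
  have h2 : (Finset.univ.gcd v) ^ 8 * ((f : ℤ) ^ 2 * Lib_helper43.Tori.nq w ^ 4) <
      (Finset.univ.gcd v) ^ 8 * n := by
    calc _ = (f : ℤ) ^ 2 * (Finset.univ.gcd v ^ 2 * Lib_helper43.Tori.nq w) ^ 4 := by ring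
      _ < n * (Finset.univ.gcd v) ^ 8 := h
      _ = _ := by ring
  exact lt_of_mul_lt_mul_left h2 (by positivity)

theorem first (n f : ℕ) (c : (Fin 3 → ℤ) →₀ ℂ)
    (hc : ∀ ξ ∈ c.support, ∑ i, (ξ i) ^ 2 = (n : ℤ))
    (hf : ∀ ξ ∈ c.support, Finset.univ.gcd ξ ≤ (f : ℤ)) (hc1 : (c.sum fun _ a => ‖a‖ ^ 2) = 1)
    (T : Finset (Fin 3 → ℤ))
    (hT : ∀ v ∈ T, (f : ℤ) ^ 2 * (∑ i, (v i) ^ 2) ^ 4 < n * (Finset.univ.gcd v) ^ 8) :
    ∑ v ∈ T, (∑ ξ ∈ c.support, ‖c (ξ + v)‖ * ‖c ξ‖) ^ 2 ≤ 3 := by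
  have hA : ∑ ξ ∈ c.support, ‖c ξ‖ ^ 2 = 1 := hc1
  have h := Lib_helper74.Tori.small_bound c.support n f
    (fun x hx => by rw [nq_eq]; exact hc x hx) hf T (fun v hv => sm_of (hT v hv))
    (fun x => ‖c x‖) (fun x => norm_nonneg _)
    (fun x hx => by rw [Finsupp.notMem_support_iff.1 hx, norm_zero])
  rw [hA, one_pow, mul_one] at h
  exact h

theorem gcd_le_one {n : ℕ} (hn : Squarefree n) {ξ : Fin 3 → ℤ}
    (hξ : ∑ i, (ξ i) ^ 2 = (n : ℤ)) : Finset.univ.gcd ξ ≤ ((1 : ℕ) : ℤ) := by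
  set g : ℤ := Finset.univ.gcd ξ with hg
  have h1 : g * g ∣ (n : ℤ) := by
    rw [← hξ]
    refine Finset.dvd_sum fun i _ => ?_
    rw [sq]
    exact mul_dvd_mul (Finset.gcd_dvd (Finset.mem_univ i)) (Finset.gcd_dvd (Finset.mem_univ i))
  have h2 : g.natAbs * g.natAbs ∣ n := by
    rw [← Int.natAbs_mul]
    exact Int.natAbs_dvd_natAbs.2 h1
  have h3 : g.natAbs = 1 := Nat.isUnit_iff.1 (hn _ h2)
  omega

/-- The bounds for the small directions and, as a consequence, for the small frequencies when `n` is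
squarefree: the part of `|u|²` at all frequencies `|v| ≤ n^(5/16 - ε)` is bounded in `L²`. -/
theorem result :
    (∀ n f : ℕ, ∀ c : (Fin 3 → ℤ) →₀ ℂ, (∀ ξ ∈ c.support, ∑ i, (ξ i) ^ 2 = (n : ℤ)) →
      (∀ ξ ∈ c.support, Finset.univ.gcd ξ ≤ (f : ℤ)) → (c.sum fun _ a => ‖a‖ ^ 2) = 1 →
      ∀ T : Finset (Fin 3 → ℤ),
        (∀ v ∈ T, (f : ℤ) ^ 2 * (∑ i, (v i) ^ 2) ^ 4 < n * (Finset.univ.gcd v) ^ 8) →
        ∑ v ∈ T, ‖fourierCoeff (fun x => ‖trigPoly c x‖ ^ 2) v‖ ^ 2 ≤ 3) ∧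
    (∀ ε : ℝ, 0 < ε → ∃ C : ℝ, ∀ n : ℕ, Squarefree n → ∀ c : (Fin 3 → ℤ) →₀ ℂ,
      (∀ ξ ∈ c.support, ∑ i, (ξ i) ^ 2 = (n : ℤ)) → (c.sum fun _ a => ‖a‖ ^ 2) = 1 →
      ∀ T : Finset (Fin 3 → ℤ),
        (∀ v ∈ T, Real.sqrt (∑ i, (v i : ℝ) ^ 2) ≤ (n : ℝ) ^ (5 / 16 - ε)) →
        ∑ v ∈ T, ‖fourierCoeff (fun x => ‖trigPoly c x‖ ^ 2) v‖ ^ 2 ≤ C) := by
  classical
  constructor
  · intro n f c hc hf hc1 T hT
    exact le_trans (Finset.sum_le_sum fun v _ => coef_le c v) (first n f c hc hf hc1 T hT)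
  · intro ε hε
    obtain ⟨C, hC0, hC⟩ := Lib_helper43.Tori.good_bound (2 * ε) (by linarith)
    refine ⟨1 + 3 + C, ?_⟩
    intro n hn c hc hc1 T hT
    have hA : ∑ ξ ∈ c.support, ‖c ξ‖ ^ 2 = 1 := hc1
    have hn0 : 0 < n := Nat.pos_of_ne_zero hn.ne_zero
    have hnR : (0 : ℝ) < n := by exact_mod_cast hn0
    set a : (Fin 3 → ℤ) → ℝ := fun v => (∑ ξ ∈ c.support, ‖c (ξ + v)‖ * ‖c ξ‖) ^ 2 with ha
    have ha0 : ∀ v, 0 ≤ a v := fun v => sq_nonneg _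
    have h0 : a 0 = 1 := by
      have : ∑ ξ ∈ c.support, ‖c (ξ + 0)‖ * ‖c ξ‖ = 1 := by
        rw [← hA]
        exact Finset.sum_congr rfl fun ξ _ => by rw [add_zero]; ring
      change (∑ ξ ∈ c.support, ‖c (ξ + 0)‖ * ‖c ξ‖) ^ 2 = 1
      rw [this, one_pow]
    -- the three parts of the set of frequencies
    set P : (Fin 3 → ℤ) → Prop := fun v =>
      ((1 : ℕ) : ℤ) ^ 2 * (∑ i, (v i) ^ 2) ^ 4 < n * (Finset.univ.gcd v) ^ 8 with hP
    set T1 := T.filter P with hT1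
    set T2 := (T.erase 0).filter (fun v => ¬ P v) with hT2
    have hsub : T ⊆ insert 0 (T1 ∪ T2) := by
      intro v hv
      rw [Finset.mem_insert, Finset.mem_union, Finset.mem_filter, Finset.mem_filter,
        Finset.mem_erase]
      by_cases h : v = 0
      · exact Or.inl h
      · by_cases h' : P v
        · exact Or.inr (Or.inl ⟨hv, h'⟩)
        · exact Or.inr (Or.inr ⟨⟨h, hv⟩, h'⟩)
    have hb1 : ∑ v ∈ T1, a v ≤ 3 :=
      first n 1 c hc (fun ξ hξ => gcd_le_one hn (hc ξ hξ)) hc1 T1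
        (fun v hv => (Finset.mem_filter.1 hv).2)
    have hb2 : ∑ v ∈ T2, a v ≤ C := by
      have h := hC n 1 one_pos c.support T2 (fun x hx => by rw [nq_eq]; exact hc x hx)
        (fun v hv => (Finset.mem_erase.1 (Finset.mem_filter.1 hv).1).1)
        (fun v _ i => one_dvd _) ?_ (fun x => ‖c x‖)
        (fun x hx => norm_pos_iff.2 (Finsupp.mem_support_iff.1 hx))
        (fun x hx => by rw [Finsupp.notMem_support_iff.1 hx, norm_zero])
      · rw [hA, one_pow, mul_one] at h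
        exact h
      · intro v hv
        obtain ⟨hv1, hv2⟩ := Finset.mem_filter.1 hv
        obtain ⟨hv0, hvT⟩ := Finset.mem_erase.1 hv1
        obtain ⟨w, u, hvw, -, hq, hpos, -⟩ := Lib_helper43.Tori.gcd_vector hv0 rfl
        set g : ℤ := Finset.univ.gcd v with hg
        have hgR : (0 : ℝ) < (g : ℝ) := by exact_mod_cast hpos
        have hVn : (Lib_helper43.Tori.nq v : ℝ) = ∑ i, (v i : ℝ) ^ 2 := by
          rw [nq_eq]
          push_cast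
          rfl
        have hle : Real.sqrt (Lib_helper43.Tori.nq v) ≤ (n : ℝ) ^ (5 / 16 - ε) := by
          rw [hVn]
          exact hT v hvT
        set R : ℝ := Real.sqrt (Lib_helper43.Tori.nq v) with hR
        have hR0 : 0 ≤ R := Real.sqrt_nonneg _
        have hR2 : R ^ 2 = Lib_helper43.Tori.nq v :=
          Real.sq_sqrt (by exact_mod_cast Lib_helper43.Tori.nq_nonneg v)
        have h8 : (n : ℝ) * (g : ℝ) ^ 8 ≤ R ^ 8 := by
          have h9 : (n : ℤ) * g ^ 8 ≤ (∑ i, (v i) ^ 2) ^ 4 := by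
            have := not_lt.1 hv2
            simpa using this
          have h10 : (n : ℝ) * (g : ℝ) ^ 8 ≤ (Lib_helper43.Tori.nq v : ℝ) ^ 4 := by
            rw [nq_eq]
            exact_mod_cast h9
          calc (n : ℝ) * (g : ℝ) ^ 8 ≤ (Lib_helper43.Tori.nq v : ℝ) ^ 4 := h10
            _ = R ^ 8 := by rw [← hR2]; ring
        have h11 : (n : ℝ) ^ (1 / 8 : ℝ) * g ≤ R := by
          have h12 : ((n : ℝ) ^ (1 / 8 : ℝ) * g) ^ 8 ≤ R ^ 8 := by
            calc ((n : ℝ) ^ (1 / 8 : ℝ) * g) ^ 8 = n * (g : ℝ) ^ 8 := by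
                  rw [mul_pow, ← Real.rpow_natCast ((n : ℝ) ^ (1 / 8 : ℝ)),
                    ← Real.rpow_mul hnR.le]
                  norm_num
              _ ≤ R ^ 8 := h8
          exact le_of_pow_le_pow_left₀ (by norm_num) hR0 h12
        have h13 : (g : ℝ) ≤ R * (n : ℝ) ^ (-(1 / 8) : ℝ) := by
          rw [Real.rpow_neg hnR.le, ← div_eq_mul_inv, le_div_iff₀ (by positivity), mul_comm]
          exact h11
        calc (g : ℝ) * R ≤ (R * (n : ℝ) ^ (-(1 / 8) : ℝ)) * R :=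
              mul_le_mul_of_nonneg_right h13 hR0
          _ = R ^ 2 * (n : ℝ) ^ (-(1 / 8) : ℝ) := by ring
          _ ≤ ((n : ℝ) ^ (5 / 16 - ε)) ^ 2 * (n : ℝ) ^ (-(1 / 8) : ℝ) :=
              mul_le_mul_of_nonneg_right (pow_le_pow_left₀ hR0 hle 2) (by positivity)
          _ = ((1 : ℤ) : ℝ) * (n : ℝ) ^ (1 / 2 - 2 * ε) := by
              rw [← Real.rpow_natCast ((n : ℝ) ^ (5 / 16 - ε)), ← Real.rpow_mul hnR.le,
                ← Real.rpow_add hnR]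
              push_cast
              rw [one_mul]
              congr 1
              ring
    calc ∑ v ∈ T, ‖fourierCoeff (fun x => ‖trigPoly c x‖ ^ 2) v‖ ^ 2
        ≤ ∑ v ∈ T, a v := Finset.sum_le_sum fun v _ => coef_le c v
      _ ≤ ∑ v ∈ insert 0 (T1 ∪ T2), a v :=
          Finset.sum_le_sum_of_subset_of_nonneg hsub fun v _ _ => ha0 v
      _ ≤ a 0 + ∑ v ∈ T1 ∪ T2, a v := by
          by_cases h : (0 : Fin 3 → ℤ) ∈ T1 ∪ T2
          · rw [Finset.insert_eq_of_mem h]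
            linarith [ha0 0]
          · rw [Finset.sum_insert h]
      _ ≤ a 0 + (∑ v ∈ T1, a v + ∑ v ∈ T2, a v) := by
          have h := Finset.sum_union_inter (s₁ := T1) (s₂ := T2) (f := a)
          have h' : 0 ≤ ∑ v ∈ T1 ∩ T2, a v := Finset.sum_nonneg fun v _ => ha0 v
          linarith
      _ ≤ 1 + 3 + C := by rw [h0]; linarith

end Pool.Agent.Results.MP_dee57a_an.SmallDirections
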