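import Pool.Agent.TDS.Auto
import Pool.Agent.TDS.Four

set_option autoImplicit false

namespace Pool.Agent.Results.MP_dee57a_an.SobolevAllDimensions

open MeasureTheory

/-- The trigonometric polynomial `∑ c_ξ exp (2 π i ξ · x)` on `ℝ ^ d / ℤ ^ d`. -/
noncomputable def trigPoly {d : ℕ} (c : (Fin d → ℤ) →₀ ℂ) (x : Fin d → ℝ) : ℂ :=
  c.sum fun ξ a => a * Complex.exp (2 * Real.pi * Complex.I *
    ∑ i, ((ξ i : ℤ) : ℂ) * ((x i : ℝ) : ℂ))

/-- The Fourier coefficient at `v` of a function on the unit cube `[0, 1] ^ d`. -/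
noncomputable def fourierCoeff {d : ℕ} (f : (Fin d → ℝ) → ℝ) (v : Fin d → ℤ) : ℂ :=
  ∫ x in Set.Icc (0 : Fin d → ℝ) 1, (f x : ℂ) * Complex.exp (-(2 * Real.pi * Complex.I *
    ∑ i, ((v i : ℤ) : ℂ) * ((x i : ℝ) : ℂ)))

/-- In every dimension `d ≥ 3` the squares `|u|²` of the `L²`-normalised Laplace eigenfunctions on
the torus are bounded in the Sobolev space `H^(-s)`, for every `s > (d - 3) / 2`. -/
theorem result : ∀ d : ℕ, 3 ≤ d → ∀ s : ℝ, ((d : ℝ) - 3) / 2 < s →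
    ∃ C : ℝ, ∀ n : ℕ, ∀ c : (Fin d → ℤ) →₀ ℂ,
    (∀ ξ ∈ c.support, ∑ i, (ξ i) ^ 2 = (n : ℤ)) → (c.sum fun _ a => ‖a‖ ^ 2) = 1 →
    ∀ T : Finset (Fin d → ℤ),
      ∑ v ∈ T, (1 + ∑ i, (v i : ℝ) ^ 2) ^ (-s) *
        ‖fourierCoeff (fun x => ‖trigPoly c x‖ ^ 2) v‖ ^ 2 ≤ C := by
  intro d hd s hs
  obtain ⟨C, hC⟩ := TDS.auto d hd s hs
  refine ⟨C, ?_⟩
  intro n c hc hc1 T
  have h := hC n c.support hc (fun x => ‖c x‖)
    (fun x hx => by rw [Finsupp.notMem_support_iff.1 hx, norm_zero]) T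
  have hA : ∑ ξ ∈ c.support, ‖c ξ‖ ^ 2 = 1 := hc1
  rw [hA, one_pow, mul_one] at h
  refine le_trans (Finset.sum_le_sum fun v _ => ?_) h
  refine mul_le_mul_of_nonneg_left ?_ (Real.rpow_nonneg (by positivity) _)
  have hcoef : fourierCoeff (fun x => ‖trigPoly c x‖ ^ 2) v =
      ∫ x in Set.Icc (0 : Fin d → ℝ) 1,
        ((‖c.sum fun ξ a => a * TDS.ch ξ x‖ ^ 2 : ℝ) : ℂ) * TDS.ch (-v) x := by
    unfold fourierCoeff
    congr 1
    ext x
    congr 1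
    unfold TDS.ch TDS.ph
    congr 1
    simp only [Pi.neg_apply, Int.cast_neg, neg_mul, Finset.sum_neg_distrib]
    ring
  rw [hcoef]
  exact pow_le_pow_left₀ (norm_nonneg _) (TDS.coeff_norm_le c v) 2

end Pool.Agent.Results.MP_dee57a_an.SobolevAllDimensions
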